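import Pool.Agent.H53.UK.Defs

/-!
MP_c62aed_lc, uniformly random `k`-CNFs, permanent lines and work memory: the rows.
Pages: /team-store/R28_c62aed_MEMORY.md, /team-store/R28_c62aed_UNIFORM.md
-/

set_option autoImplicit false

namespace Pool.Agent.H53.UK

open Finset
open Pool.Agent.H53.MC (Clause Falsified SatBy Line Circuit)
open Pool.Agent.H53.MW (Follows Session DerivesL geL DerivesR cb qp th0 th1)
open Pool.Agent.H15.FLX (BR)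
open Pool.Agent.H97.SHL (DT bl)

/-! ### Spread sets -/

/-- INU: being inside, the number of the candidates inside and spreadness depend only on the values
on `A`. -/
def T_INU : Prop :=
  ∀ {n k : ℕ} {ι : Type} (H : ι → KC n k) (d s₀ : ℕ) (A : Finset (Fin n)) (x y : Fin n → Bool),
    (∀ i ∈ A, x i = y i) → (∀ c, InU H (A, x) c ↔ InU H (A, y) c) ∧ cnU H (A, x) = cnU H (A, y) ∧
      ∀ Q : Finset (Fin n → Bool), SpU H d s₀ (A, x) Q → SpU H d s₀ (A, y) Q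

/-- HCU: the heaviest cube. -/
def T_HCU : Prop :=
  ∀ {n k : ℕ} {ι : Type} (H : ι → KC n k) (d s₀ : ℕ) (Z : Finset (Fin n → Bool)), Z.Nonempty →
    ∃ (A : Finset (Fin n)) (x : Fin n → Bool), SpU H d s₀ (A, x) (cb Z A x) ∧
      Z.card ≤ (cb Z A x).card * 2 ^ (d * s₀)

/-- SZU: large spread sets have small cubes. -/
def T_SZU : Prop :=
  ∀ {n k : ℕ} {ι : Type} (H : ι → KC n k) (d s₀ w : ℕ) (p : Finset (Fin n) × (Fin n → Bool))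
    (Q : Finset (Fin n → Bool)), w ≤ n → SpU H d s₀ p Q → 2 ^ (n - w) < Q.card → p.1.card < w

/-- SVU: a candidate which is not inside the cube is violated by few points of a spread set. -/
def T_SVU : Prop :=
  ∀ {n k : ℕ} {ι : Type} [Fintype ι] (H : ι → KC n k) (d s₀ w : ℕ), H3 H w s₀ →
    ∀ (p : Finset (Fin n) × (Fin n → Bool)) (Q : Finset (Fin n → Bool)),
    SpU H d s₀ p Q → p.1.card < w → ∀ c : ι, ¬ InU H p c →
      Nat.card {y // y ∈ Q ∧ VC (H c) y} * 2 ^ d ≤ Q.card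

/-- SCU: if less than `2 ^ d` candidates cover a spread set, then one of them is inside the cube. -/
def T_SCU : Prop :=
  ∀ {n k : ℕ} {ι : Type} [Fintype ι] (H : ι → KC n k) (d s₀ w : ℕ), H3 H w s₀ →
    ∀ (p : Finset (Fin n) × (Fin n → Bool)) (Q : Finset (Fin n → Bool)),
    SpU H d s₀ p Q → p.1.card < w → ∀ T : Finset ι, T.card < 2 ^ d → CovU H T Q →
      ∃ c ∈ T, InU H p c

/-- DEU: decompositions exist. -/
def T_DEU : Prop :=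
  ∀ {n k : ℕ} {ι : Type} (H : ι → KC n k) (d s₀ θ : ℕ), 1 ≤ θ →
    ∀ R : Finset (Fin n → Bool), DecU H d s₀ θ (θ * 2 ^ (d * s₀)) R (dcU H d s₀ θ R)

/-! ### Kernels and exceptions -/

/-- KSX: kernels are monotone, the kernels of a function are a chain. -/
def T_KXU : Prop :=
  ∀ {n k : ℕ} {ι : Type} (H : ι → KC n k) (d s₀ w θ : ℕ), w ≤ n → 2 ^ (n - w) < θ →
    (∀ B B' : Finset (Fin n → Bool), B ⊆ B' → KerU H d s₀ θ B ⊆ KerU H d s₀ θ B') ∧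
    (∀ B : Finset (Fin n → Bool), ∀ p ∈ KerU H d s₀ θ B, p.1.card < w) ∧
    ∀ (f : ℕ → (Fin n → Bool) → ℝ) (i : ℕ), IsChain (· ⊆ ·) (KSU H d s₀ θ f i)

/-- LXU (Lemma X): the exceptions of a chain. -/
def T_LXU : Prop :=
  ∀ {n k : ℕ} {ι : Type} (H : ι → KC n k) (d s₀ θ : ℕ), ∀ 𝒞 : Set (Finset (Fin n → Bool)),
    IsChain (· ⊆ ·) 𝒞 →
      Nat.card {x : Fin n → Bool // ∃ B ∈ 𝒞, x ∈ ErrU H d s₀ θ B} ≤ 2 ^ (d * s₀) * θ

/-- LSU (Lemma S, stability). -/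
def T_LSU : Prop :=
  ∀ {n k : ℕ} {ι : Type} (H : ι → KC n k) (d s₀ θ : ℕ), ∀ 𝓛 : Finset (Line n),
    ∃ E : Finset (Fin n → Bool), E.card ≤ 𝓛.card * (2 ^ (d * s₀) * θ) ∧
      ∀ L ∈ 𝓛, ErrU H d s₀ θ (Lᶜ \ E) = ∅

/-- EBU: the number of the exceptions of real functions. -/
def T_EBU : Prop :=
  ∀ {n k : ℕ} {ι : Type} (H : ι → KC n k) (d s₀ θ : ℕ) (f : ℕ → (Fin n → Bool) → ℝ) (i : ℕ),
    (ESU H d s₀ θ f i).card ≤ i * (2 ^ (d * s₀) * θ)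

/-- LKU: a choice which hits the kernel covers the set by `q` candidates, up to exceptions. -/
def T_LKU : Prop :=
  ∀ {n k : ℕ} {ι : Type} (H : ι → KC n k) (d s₀ θ q : ℕ)
    (𝒦 : Set (Set (Finset (Fin n) × (Fin n → Bool)))) (B : Finset (Fin n → Bool)) (R : Set ι),
    ¬ BadU H q 𝒦 R → KerU H d s₀ θ B ∈ 𝒦 → (∀ p ∈ KerU H d s₀ θ B, HitU H R p) →
      LfU H R q (B \ ErrU H d s₀ θ B)

/-! ### The random choice -/

/-- TOU: falsified = violated; few candidates cover few assignments. -/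
def T_TOU : Prop :=
  (∀ {n k : ℕ} (c : KC n k) (x : Fin n → Bool), Falsified (toCl c) x ↔ VC c x) ∧
  ∀ {n k : ℕ} {ι : Type} (H : ι → KC n k) (q : ℕ) (T : Finset ι) (B : Finset (Fin n → Bool)),
    T.card ≤ q → CovU H T B → B.card ≤ q * 2 ^ (n - k)

/-- RSU: the number of the choices which contain `T`. -/
def T_RSU : Prop :=
  ∀ {m μ : ℕ} (T : Finset (Fin m × Fin μ)),
    Nat.card {r : Fin m → Fin μ // ∀ c ∈ T, c ∈ AL r} * μ ^ T.card ≤ Nat.card (Fin m → Fin μ)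

/-- LFU: few choices are bad for a chain. -/
def T_LFU : Prop :=
  ∀ {n k m μ : ℕ} (H : Fin m × Fin μ → KC n k) (w s₀ q : ℕ), H3 H w s₀ →
    ∀ 𝒦 : Set (Set (Finset (Fin n) × (Fin n → Bool))), IsChain (· ⊆ ·) 𝒦 →
      (∀ K ∈ 𝒦, ∀ p ∈ K, p.1.card < w) →
      Nat.card {r : Fin m → Fin μ // BadU H q 𝒦 (AL r)} * μ ^ (q + 1) ≤
        s₀ ^ (q + 1) * Nat.card (Fin m → Fin μ)

/-- HTU: few choices hit `p`. -/
def T_HTU : Prop :=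
  ∀ {n k m μ : ℕ} (H : Fin m × Fin μ → KC n k) (w s₀ : ℕ), H3 H w s₀ →
    ∀ p : Finset (Fin n) × (Fin n → Bool), p.1.card < w →
      Nat.card {r : Fin m → Fin μ // HitU H (AL r) p} * μ ≤ s₀ * Nat.card (Fin m → Fin μ)

/-- MGU: the exponential moment. -/
def T_MGU : Prop :=
  ∀ {m μ : ℕ} (W : Fin m × Fin μ → ℝ) (S V : ℝ), 1 ≤ μ → (∀ c, 0 ≤ W c ∧ W c ≤ 1) →
    ∑ c, W c ≤ S →
      (Nat.card {r : Fin m → Fin μ // V ≤ ∑ j, W (j, r j)} : ℝ) * 2 ^ V ≤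
        Real.exp (S / μ) * Nat.card (Fin m → Fin μ)

/-- LOU: few choices lose more than `1 / a` of a spread set in one step. -/
def T_LOU : Prop :=
  ∀ {n k m μ : ℕ} (H : Fin m × Fin μ → KC n k) (w s₀ d a E : ℕ), H3 H w s₀ → 1 ≤ a → 1 ≤ μ →
    2 * a * E ≤ 2 ^ d → 4 * a * s₀ ≤ μ →
    ∀ p : Finset (Fin n → Bool) × Finset (Fin n), p.1.Nonempty →
      (∀ x ∈ p.1, SpU H d s₀ (p.2, x) p.1) → p.2.card < w →
    ∀ 𝒟 : Finset (Finset (Fin n → Bool) × Finset (Fin n)),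
      (∀ p' ∈ 𝒟, ∀ p'' ∈ 𝒟, p' ≠ p'' → Disjoint p'.1 p''.1) → (∀ p' ∈ 𝒟, p'.2.card < w) →
      (∀ p' ∈ 𝒟, ∀ x ∈ p'.1, ∀ y ∈ p'.1, ∀ i ∈ p'.2, x i = y i) →
      Nat.card {r : Fin m → Fin μ // ¬ RgU H (AL r) a p 𝒟} * 2 ^ E ≤ Nat.card (Fin m → Fin μ)

/-- REU: few choices are irregular. -/
def T_REU : Prop :=
  ∀ {n k m μ : ℕ} (H : Fin m × Fin μ → KC n k) (γ : ℝ) (t w d s₀ q θ : ℕ), H3 H w s₀ →
    ParU γ n t k μ w d s₀ q → th0 n w ≤ θ →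
    ∀ 𝒬 𝓕 : Finset (Finset (Fin n → Bool)), 𝒬.card ≤ 2 ^ ((t + 1) * t) →
      𝓕.card ≤ 2 ^ (2 * n + 2) →
      Nat.card {r : Fin m → Fin μ // ¬ RegU H d s₀ (th0 n w) θ 𝒬 𝓕 (AL r)} * 2 ^ (t + 3) ≤
        Nat.card (Fin m → Fin μ)

/-! ### Trees -/

/-- TEU: a decision tree for a spread set which is not hit has many leaves. -/
def T_TEU : Prop :=
  ∀ {n k : ℕ} {ι : Type} [Fintype ι] (H : ι → KC n k) (w s₀ d r : ℕ), H3 H w s₀ → w ≤ n →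
    1 ≤ n → r < 2 ^ d →
    ∀ (𝒬 : Finset (Finset (Fin n → Bool))) (R : Set ι) (A : Finset (Fin n))
      (x : Fin n → Bool) (Q : Finset (Fin n → Bool)) (S : ℕ), SpU H d s₀ (A, x) Q →
      RglU H d s₀ (th0 n w) 𝒬 R A Q → ¬ HitU H R (A, x) → DT 𝒬 (LfU H R r) Q n S →
      Q.card ≤ 4 * (th0 n w * 2 ^ (d * s₀)) * S

/-- HSU: if a set of the family has a small decision tree, then its kernel is hit. -/
def T_HSU : Prop :=
  ∀ {n k : ℕ} {ι : Type} [Fintype ι] (H : ι → KC n k) (w s₀ d r s : ℕ), H3 H w s₀ → w ≤ n →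
    1 ≤ n → r < 2 ^ d →
    ∀ (𝒬 𝓕 : Finset (Finset (Fin n → Bool))) (R : Set ι),
      RegU H d s₀ (th0 n w) (th1 n w d s₀ s) 𝒬 𝓕 R → ∀ B ∈ 𝓕, ∀ S, S ≤ s →
      DT 𝒬 (LfU H R r) B n S → ∀ p ∈ KerU H d s₀ (th1 n w d s₀ s) B, HitU H R p

/-- SEU: a session is a decision tree. -/
def T_SEU : Prop :=
  ∀ {n k m μ : ℕ} (H : Fin m × Fin μ → KC n k) (t q s : ℕ), 1 ≤ t → s ≤ 2 ^ n →
    ∀ (r : Fin m → Fin μ) (P : Line n → Prop) (𝓠 : Finset (Line n))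
      (E : Finset (Fin n → Bool)) (L : Line n), (∀ Q, P Q → LfU H (AL r) q (Qᶜ \ E)) →
      Session (cnfU (FU H r)) P 𝓠 t s L →
      ∃ S, S ≤ s ∧ DT (qp 𝓠 t) (LfU H (AL r) (t * t + t * t * q)) (Lᶜ \ E) n S

/-! ### The two proofs -/

/-- PLU: every derived line has a small cover, and the choice hits the kernel of the line. -/
def T_PLU : Prop :=
  ∀ {n k m μ : ℕ} (H : Fin m × Fin μ → KC n k) (w s₀ d t q s : ℕ), H3 H w s₀ → w ≤ n → 1 ≤ n →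
    1 ≤ t → t * t + t * t * q < 2 ^ d → s ≤ 2 ^ n →
    ∀ (𝓛 𝓠 : Finset (Line n)) (E : Finset (Fin n → Bool)),
      (∀ L ∈ 𝓛, ErrU H d s₀ (th1 n w d s₀ s) (Lᶜ \ E) = ∅) → ∀ r : Fin m → Fin μ,
      (∀ L ∈ 𝓛, ¬ BadU H q {KerU H d s₀ (th1 n w d s₀ s) (Lᶜ \ E)} (AL r)) →
      RegU H d s₀ (th0 n w) (th1 n w d s₀ s) (qp 𝓠 t) (𝓛.image fun L => Lᶜ \ E) (AL r) →
      ∀ L : Line n, DerivesL (cnfU (FU H r)) 𝓛 𝓠 t s L →
        L ∈ 𝓛 ∧ LfU H (AL r) q (Lᶜ \ E) ∧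
        ∀ p ∈ KerU H d s₀ (th1 n w d s₀ s) (Lᶜ \ E), HitU H (AL r) p

/-- PRU: the same for inequalities. -/
def T_PRU : Prop :=
  ∀ {n k m μ : ℕ} (H : Fin m × Fin μ → KC n k) (w s₀ d t q s N : ℕ), H3 H w s₀ → w ≤ n → 1 ≤ n →
    1 ≤ t → t * t + t * t * q < 2 ^ d → s ≤ 2 ^ n →
    ∀ (𝓠 : Finset (Line n)) (f : ℕ → (Fin n → Bool) → ℝ) (𝓕 : Finset (Finset (Fin n → Bool))),
      (∀ i, i < N → ∀ a : ℝ, BR (ESU H d s₀ (th1 n w d s₀ s) f i) (f i) a ∈ 𝓕) →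
      ∀ r : Fin m → Fin μ,
      (∀ i, i < N → ¬ BadU H q (KSU H d s₀ (th1 n w d s₀ s) f i) (AL r)) →
      RegU H d s₀ (th0 n w) (th1 n w d s₀ s) (qp 𝓠 t) 𝓕 (AL r) →
      ∀ (i : ℕ) (a : ℝ), i < N → DerivesR (cnfU (FU H r)) f 𝓠 t s i a →
        LfU H (AL r) q (BR (ESU H d s₀ (th1 n w d s₀ s) f (i + 1)) (f i) a) ∧
        ∀ p ∈ KerU H d s₀ (th1 n w d s₀ s) (BR (ESU H d s₀ (th1 n w d s₀ s) f i) (f i) a),
          HitU H (AL r) p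

/-! ### Assembly -/

/-- ABU: part (1) for good candidates. -/
def T_ABU : Prop :=
  ∀ {n k m μ : ℕ} (H : Fin m × Fin μ → KC n k) (γ : ℝ) (t w d s₀ q : ℕ), H3 H w s₀ →
    ParU γ n t k μ w d s₀ q →
    ∀ (𝓛 𝓠 : Finset (Line n)) (s : ℕ) (L : Line n), 𝓠.card ≤ 2 ^ t → 1 ≤ s →
      FewR γ n t (𝓛.card * s) (Nat.card {x // x ∉ L})
        (Nat.card {r : Fin m → Fin μ // DerivesL (cnfU (FU H r)) 𝓛 𝓠 t s L})
        (Nat.card (Fin m → Fin μ))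

/-- ARU: part (2) for good candidates. -/
def T_ARU : Prop :=
  ∀ {n k m μ : ℕ} (H : Fin m × Fin μ → KC n k) (γ : ℝ) (t w d s₀ q : ℕ), H3 H w s₀ →
    ParU γ n t k μ w d s₀ q →
    ∀ (𝓠 : Finset (Line n)) (N s : ℕ) (f : ℕ → (Fin n → Bool) → ℝ) (i : ℕ) (a : ℝ),
      𝓠.card ≤ 2 ^ t → 1 ≤ s → i < N →
      FewR γ n t (N * s) (Nat.card {x // f i x < a})
        (Nat.card {r : Fin m → Fin μ // DerivesR (cnfU (FU H r)) f 𝓠 t s i a})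
        (Nat.card (Fin m → Fin μ))

/-- TRU: a random formula is a random choice from random candidates. -/
def T_TRU : Prop :=
  ∀ {n k m μ : ℕ} (P : KCNF n k m → Prop),
    Nat.card {F : KCNF n k m // P F} *
        (Nat.card (Fin m × Fin μ → KC n k) * Nat.card (Fin m → Fin μ)) =
      Nat.card {u : (Fin m × Fin μ → KC n k) × (Fin m → Fin μ) // P (FU u.1 u.2)} *
        Nat.card (KCNF n k m)

/-- CMB: from good candidates to all formulas. -/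
def T_CMB : Prop :=
  ∀ {n k m μ : ℕ} (γ : ℝ) (t s b w s₀ : ℕ) (P : KCNF n k m → Prop), k ≤ n → 1 ≤ μ →
    t ≤ 2 ^ (n + 1) →
    2 ^ (2 * n + 2) * Nat.card {H : Fin m × Fin μ → KC n k // ¬ H3 H w s₀} ≤
      Nat.card (Fin m × Fin μ → KC n k) →
    (∀ H : Fin m × Fin μ → KC n k, H3 H w s₀ →
      FewR γ n t s b (Nat.card {r : Fin m → Fin μ // P (FU H r)}) (Nat.card (Fin m → Fin μ))) →
    Few γ n t s b (Nat.card {F : KCNF n k m // P F}) (Nat.card (KCNF n k m))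

/-- HXU: few candidates violate `H3`. -/
def T_HXU : Prop :=
  ∀ (ε β : ℝ) (n k m μ w s₀ : ℕ), 0 < ε → 0 < β → (w + k : ℝ) ≤ β * n →
    m * β ^ k ≤ 2 ^ ((1 - ε) * k) → (μ : ℝ) ≤ 2 ^ (ε / 2 * k) →
    4 * (n : ℝ) + 4 ≤ ε / 2 * k * (s₀ + 1) →
    2 ^ (2 * n + 2) * Nat.card {H : Fin m × Fin μ → KC n k // ¬ H3 H w s₀} ≤
      Nat.card (Fin m × Fin μ → KC n k)

/-- CHU: Chernoff and the union bound. -/
def T_CHU : Prop :=
  ∀ (ε : ℝ) (n t k m : ℕ), 0 < ε → ε ≤ 1 → 1 ≤ t → n ≤ t → 4 * t * 2 ^ k ≤ ε ^ 2 * m →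
    2 ^ t * Nat.card {F : KCNF n k m // ∃ x,
      (Nat.card {j // Falsified (toCl (F j)) x} : ℝ) < (1 - ε) * m / 2 ^ k} ≤
        Nat.card (KCNF n k m)

/-- NMU: the parameters. -/
def T_NMU : Prop :=
  ∃ C : ℕ, ∀ (ε β : ℝ) (n t k : ℕ), 0 < ε → ε < β → β ≤ 1 → 2 ≤ t → n ≤ t →
    C * Nat.log 2 t ≤ ε ^ 2 * k → C * k ≤ ε * n →
      ∃ μ w d s₀ q : ℕ, ParU (β - ε) n t k μ w d s₀ q ∧ (w + k : ℝ) ≤ β * n ∧
        (μ : ℝ) ≤ 2 ^ (ε / 2 * k) ∧ 4 * (n : ℝ) + 4 ≤ ε / 2 * k * (s₀ + 1)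

/-- FNU: the final statement. -/
def T_FNU : Prop := Main

end Pool.Agent.H53.UK
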