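import Pool.Agent.H53.UK.Targets

/-!
MP_c62aed_lc, uniformly random k-CNFs: row MGU (the exponential moment).
-/

set_option autoImplicit false

namespace Pool.Agent.H53.UK

open Finset

theorem pf_MGU : T_MGU := by
  classical
  intro m μ W S V hμ hW hS
  have hμ0 : (0 : ℝ) < μ := by exact_mod_cast hμ
  have h1 : ∀ j, ∑ a : Fin μ, (2 : ℝ) ^ (W (j, a)) ≤ μ * Real.exp ((∑ a, W (j, a)) / μ) := by
    intro j
    have h2 : ∀ a ∈ (univ : Finset (Fin μ)), (2 : ℝ) ^ (W (j, a)) ≤ 1 + W (j, a) := by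
      intro a _
      have h2 := rpow_one_add_le_one_add_mul_self (s := 1) (by norm_num)
        (hW (j, a)).1 (hW (j, a)).2
      have h3 : (1 : ℝ) + 1 = 2 := by norm_num
      rw [h3, mul_one] at h2
      exact h2
    have h3 := sum_le_sum h2
    have h4 : ∑ a : Fin μ, (1 + W (j, a)) = μ * ((∑ a, W (j, a)) / μ + 1) := by
      rw [sum_add_distrib, sum_const, card_univ, Fintype.card_fin, nsmul_eq_mul, mul_add, mul_one,
        mul_div_cancel₀ _ hμ0.ne']
      ring
    rw [h4] at h3
    exact h3.trans (mul_le_mul_of_nonneg_left (Real.add_one_le_exp _) hμ0.le)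
  have h5 : ∑ r : Fin m → Fin μ, (2 : ℝ) ^ (∑ j, W (j, r j)) ≤
      Real.exp (S / μ) * (Nat.card (Fin m → Fin μ) : ℝ) := by
    have h6 : ∀ r : Fin m → Fin μ, (2 : ℝ) ^ (∑ j, W (j, r j)) = ∏ j, (2 : ℝ) ^ (W (j, r j)) := by
      intro r
      exact Real.rpow_sum_of_pos (by norm_num) _ _
    simp only [h6]
    have h7 : ∑ r : Fin m → Fin μ, ∏ j, (2 : ℝ) ^ (W (j, r j)) =
        ∏ j, ∑ a : Fin μ, (2 : ℝ) ^ (W (j, a)) := by
      rw [Finset.prod_univ_sum, Fintype.piFinset_univ]
    rw [h7]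
    refine (Finset.prod_le_prod (fun j _ => sum_nonneg fun a _ => by positivity)
      fun j _ => h1 j).trans ?_
    rw [prod_mul_distrib, prod_const, card_univ, Fintype.card_fin, ← Real.exp_sum,
      Nat.card_eq_fintype_card, Fintype.card_fun, Fintype.card_fin, Fintype.card_fin, mul_comm]
    push_cast
    refine mul_le_mul_of_nonneg_right (Real.exp_le_exp.2 ?_) (by positivity)
    rw [← sum_div]
    refine div_le_div_of_nonneg_right ?_ hμ0.le
    rw [Fintype.sum_prod_type] at hS
    exact hS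
  refine le_trans ?_ h5
  rw [Nat.card_eq_fintype_card, Fintype.card_subtype, ← nsmul_eq_mul, ← sum_const]
  refine le_trans (sum_le_sum fun r hr => ?_) (sum_le_sum_of_subset_of_nonneg (filter_subset _ _)
    fun r _ _ => by positivity)
  exact Real.rpow_le_rpow_of_exponent_le (by norm_num) (mem_filter.1 hr).2

end Pool.Agent.H53.UK
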