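import Pool.Agent.H50.UK.ABU
import Pool.Agent.H90.UK.ARU
import Pool.Agent.H90.UK.PRU
import Pool.Agent.H80.UK.CHU
import Pool.Agent.H47.UK.CMB
import Pool.Agent.H91.UK.DEU
import Pool.Agent.H91.UK.REU
import Pool.Agent.H64.UK.EBU
import Pool.Agent.H12.UK.FNU
import Pool.Agent.H12.UK.LFU
import Pool.Agent.H42.UK.HCU
import Pool.Agent.H42.UK.SZU
import Pool.Agent.H55.UK.HSU
import Pool.Agent.H4.UK.HTU
import Pool.Agent.H61.UK.HXU
import Pool.Agent.H46.UK.INU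
import Pool.Agent.H11.UK.KXU
import Pool.Agent.H31.UK.LKU
import Pool.Agent.H30.UK.LOU
import Pool.Agent.H30.UK.LXU
import Pool.Agent.H89.UK.LSU
import Pool.Agent.H53.UK.MGU
import Pool.Agent.H36.UK.NMU
import Pool.Agent.H13.UK.PLU
import Pool.Agent.H45.UK.RSU
import Pool.Agent.H75.UK.SCU
import Pool.Agent.H1.UK.SEU
import Pool.Agent.H1.UK.SVU
import Pool.Agent.H39.UK.TEU
import Pool.Agent.H69.UK.TOU
import Pool.Agent.H81.UK.TRU
import Pool.Agent.H38.MW.CRM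
import Pool.Agent.H36.MW.A
import Pool.Agent.H57.MWK.DTR
import Pool.Agent.H49.MWK.QPC
import Pool.Agent.H60.SHL.SEQ
import Pool.Agent.H68.SHL.BLM
import Pool.Agent.H19.FLX.SUB

/-!
MP_c62aed_lc, uniformly random k-CNFs: composition of the rows.
-/

set_option autoImplicit false

namespace Pool.Agent.H53.UK

theorem main : Main := by
  have hINU : T_INU := Pool.Agent.H46.UK.pf_INU
  have hHCU : T_HCU := Pool.Agent.H42.UK.pf_HCU hINU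
  have hSZU : T_SZU := Pool.Agent.H42.UK.pf_SZU
  have hSVU : T_SVU := Pool.Agent.H1.UK.pf_SVU
  have hSCU : T_SCU := Pool.Agent.H75.UK.pf_SCU hSVU
  have hDEU : T_DEU := Pool.Agent.H91.UK.pf_DEU hINU hHCU
  have hKXU : T_KXU := Pool.Agent.H11.UK.pf_KXU hSZU
  have hLXU : T_LXU := Pool.Agent.H30.UK.pf_LXU hINU hHCU
  have hLSU : T_LSU := Pool.Agent.H89.UK.pf_LSU hLXU
  have hEBU : T_EBU := Pool.Agent.H64.UK.pf_EBU hLXU
  have hLKU : T_LKU := Pool.Agent.H31.UK.pf_LKU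
  have hTOU : T_TOU := Pool.Agent.H69.UK.pf_TOU
  have hRSU : T_RSU := Pool.Agent.H45.UK.pf_RSU
  have hLFU : T_LFU := Pool.Agent.H12.UK.pf_LFU hRSU
  have hHTU : T_HTU := Pool.Agent.H4.UK.pf_HTU hRSU
  have hMGU : T_MGU := pf_MGU
  have hLOU : T_LOU := Pool.Agent.H30.UK.pf_LOU hINU hSVU hMGU
  have hREU : T_REU := Pool.Agent.H91.UK.pf_REU Pool.Agent.H68.SHL.pf_BLM hINU hSZU hDEU hLOU
  have hTEU : T_TEU := Pool.Agent.H39.UK.pf_TEU hINU hSZU hSCU hDEU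
  have hHSU : T_HSU := Pool.Agent.H55.UK.pf_HSU hTEU Pool.Agent.H57.MWK.pf_DTR
  have hSEU : T_SEU := Pool.Agent.H1.UK.pf_SEU hTOU Pool.Agent.H60.SHL.pf_SEQ
    Pool.Agent.H57.MWK.pf_DTR
  have hPLU : T_PLU := Pool.Agent.H13.UK.pf_PLU hSEU hHSU hLKU
  have hPRU : T_PRU := Pool.Agent.H90.UK.pf_PRU hSEU hHSU hLKU
  have hABU : T_ABU := Pool.Agent.H50.UK.pf_ABU hTOU hLFU hHTU hKXU hLSU
    Pool.Agent.H49.MWK.pf_QPC hREU hPLU
  have hARU : T_ARU := Pool.Agent.H90.UK.pf_ARU hTOU hLFU hHTU hKXU hEBU Pool.Agent.H36.MW.pf_CHN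
    Pool.Agent.H49.MWK.pf_QPC hREU hPRU
  have hCMB : T_CMB := Pool.Agent.H47.UK.pf_CMB Pool.Agent.H81.UK.pf_TRU
  have hHXU : T_HXU := Pool.Agent.H61.UK.HXU.pf_HXU Pool.Agent.H19.FLX.pf_SUB
  exact Pool.Agent.H12.UK.pf_FNU hABU hARU Pool.Agent.H38.MW.pf_CRM hCMB hHXU
    Pool.Agent.H80.UK.pf_CHU Pool.Agent.H36.UK.pf_NMU

end Pool.Agent.H53.UK
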