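import Pool.Agent.H53.UK.Stmt
import Pool.Agent.H53.MW.Targets

/-!
MP_c62aed_lc: definitions used in the proof (not in the statement) of `Pool.Agent.H53.UK.Main`.
`H : ι → KC n k` are the candidates for the clauses, `R : Set ι` are the chosen candidates.
-/

set_option autoImplicit false

namespace Pool.Agent.H53.UK

open Finset
open Pool.Agent.H53.MC (Clause Falsified SatBy Line Circuit)
open Pool.Agent.H53.MW (Follows Session DerivesL geL DerivesR cb qp th0 th1)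
open Pool.Agent.H15.FLX (BR)
open Pool.Agent.H97.SHL (DT bl)

/-- All literals of the clause are false. -/
def VC {n k : ℕ} (c : KC n k) (x : Fin n → Bool) : Prop := ∀ i ∈ c.1.1, x i ≠ c.2 i

section

variable {n k : ℕ} {ι : Type} (H : ι → KC n k)

/-- The candidate `c` is inside `(A, x)`: its variables are in `A` and `x` violates it. -/
def InU (p : Finset (Fin n) × (Fin n → Bool)) (c : ι) : Prop := (H c).1.1 ⊆ p.1 ∧ VC (H c) p.2

/-- The number of the candidates inside `p`. -/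
noncomputable def cnU (p : Finset (Fin n) × (Fin n → Bool)) : ℕ := Nat.card {c : ι // InU H p c}

/-- At most `s₀` candidates are inside `(A, x)` if `A` has at most `w + k` variables. -/
def H3 (w s₀ : ℕ) : Prop :=
  ∀ p : Finset (Fin n) × (Fin n → Bool), p.1.card ≤ w + k → cnU H p ≤ s₀

/-- The weight of a cube. -/
noncomputable def wtU (d s₀ : ℕ) (p : Finset (Fin n) × (Fin n → Bool)) : ℕ :=
  2 ^ (d * min (cnU H p) s₀)

/-- `Q` lies in the cube `p = (A, x)` and is spread there. -/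
structure SpU (d s₀ : ℕ) (p : Finset (Fin n) × (Fin n → Bool)) (Q : Finset (Fin n → Bool)) :
    Prop where
  ne : Q.Nonempty
  inc : ∀ y ∈ Q, ∀ i ∈ p.1, y i = p.2 i
  spr : ∀ (A : Finset (Fin n)) (x : Fin n → Bool), p.1 ⊆ A →
    (cb Q A x).card * wtU H d s₀ (A, x) ≤ Q.card * wtU H d s₀ p

/-- The spread kernel of `B`. -/
def KerU (d s₀ θ : ℕ) (B : Finset (Fin n → Bool)) : Set (Finset (Fin n) × (Fin n → Bool)) :=
  {p | ∃ Q : Finset (Fin n → Bool), Q ⊆ B ∧ SpU H d s₀ p Q ∧ θ ≤ Q.card}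

open Classical in
/-- The exceptions of `B`. -/
noncomputable def ErrU (d s₀ θ : ℕ) (B : Finset (Fin n → Bool)) : Finset (Fin n → Bool) :=
  B.filter fun x => ∀ A : Finset (Fin n), (A, x) ∉ KerU H d s₀ θ B

/-- A decomposition of `R` into parts `(Q, A)`: they are disjoint, spread and have at least `θ`
points; at most `τ` points of `R` are left. -/
structure DecU (d s₀ θ τ : ℕ) (R : Finset (Fin n → Bool))
    (𝒟 : Finset (Finset (Fin n → Bool) × Finset (Fin n))) : Prop where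
  sub : ∀ p ∈ 𝒟, p.1 ⊆ R
  dis : ∀ p ∈ 𝒟, ∀ p' ∈ 𝒟, p ≠ p' → Disjoint p.1 p'.1
  spr : ∀ p ∈ 𝒟, ∀ x ∈ p.1, SpU H d s₀ (p.2, x) p.1
  big : ∀ p ∈ 𝒟, θ ≤ p.1.card
  rest : (R \ 𝒟.biUnion Prod.fst).card ≤ τ

open Classical in
/-- The chosen decomposition of `R` (it exists by the row DEC). -/
noncomputable def dcU (d s₀ θ : ℕ) (R : Finset (Fin n → Bool)) :
    Finset (Finset (Fin n → Bool) × Finset (Fin n)) :=
  if h : ∃ 𝒟, DecU H d s₀ θ (θ * 2 ^ (d * s₀)) R 𝒟 then h.choose else ∅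

/-- Some chosen candidate is inside `p`. -/
def HitU (R : Set ι) (p : Finset (Fin n) × (Fin n → Bool)) : Prop := ∃ c ∈ R, InU H p c

open Classical in
/-- The union of the parts of `𝒟` which are hit. -/
noncomputable def hpU (R : Set ι) (𝒟 : Finset (Finset (Fin n → Bool) × Finset (Fin n))) :
    Finset (Fin n → Bool) :=
  (𝒟.filter fun p => ∃ x ∈ p.1, HitU H R (p.2, x)).biUnion Prod.fst

open Classical in
/-- The union of the parts of `𝒟` which are not hit. -/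
noncomputable def upU (R : Set ι) (𝒟 : Finset (Finset (Fin n → Bool) × Finset (Fin n))) :
    Finset (Fin n → Bool) :=
  (𝒟.filter fun p => ¬ ∃ x ∈ p.1, HitU H R (p.2, x)).biUnion Prod.fst

/-- The part `p` is hit, or at most the fraction `1 / a` of its points is in hit parts of `𝒟`. -/
def RgU (R : Set ι) (a : ℕ) (p : Finset (Fin n → Bool) × Finset (Fin n))
    (𝒟 : Finset (Finset (Fin n → Bool) × Finset (Fin n))) : Prop :=
  (∃ x ∈ p.1, HitU H R (p.2, x)) ∨ a * (p.1 ∩ hpU H R 𝒟).card ≤ p.1.card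

/-- The choice `R` is regular for all regions of `Q` given by at most `n` queries. -/
structure RglU (d s₀ θ : ℕ) (𝒬 : Finset (Finset (Fin n → Bool))) (R : Set ι)
    (A : Finset (Fin n)) (Q : Finset (Fin n → Bool)) : Prop where
  root : RgU H R (4 * (n + 1)) (Q, A) (dcU H d s₀ θ Q)
  node : ∀ P ∈ bl 𝒬 n {Q}, ∀ P' ∈ bl 𝒬 n {Q}, ∀ p ∈ dcU H d s₀ θ P,
    RgU H R (4 * (n + 1)) p (dcU H d s₀ θ P')

/-- The choice `R` is regular for the sets of the family `𝓕`: `θ₁` is the bound for the size of the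
witnesses, `θ₀` the bound for the parts. -/
def RegU (d s₀ θ₀ θ₁ : ℕ) (𝒬 : Finset (Finset (Fin n → Bool)))
    (𝓕 : Finset (Finset (Fin n → Bool))) (R : Set ι) : Prop :=
  ∀ B ∈ 𝓕, ∀ p ∈ KerU H d s₀ θ₁ B, ∃ Q : Finset (Fin n → Bool), Q ⊆ B ∧ SpU H d s₀ p Q ∧
    θ₁ ≤ Q.card ∧ RglU H d s₀ θ₀ 𝒬 R p.1 Q

/-- Every assignment of `B` violates a candidate of `T`. -/
def CovU (T : Finset ι) (B : Finset (Fin n → Bool)) : Prop := ∀ x ∈ B, ∃ c ∈ T, VC (H c) x

/-- `B` is covered by at most `r` chosen candidates. -/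
def LfU (R : Set ι) (r : ℕ) (B : Finset (Fin n → Bool)) : Prop :=
  ∃ T : Finset ι, (∀ c ∈ T, c ∈ R) ∧ T.card ≤ r ∧ CovU H T B

/-- The chosen candidates hit all elements of some member `K` of the chain `𝒦`, but no `q` of them
do. -/
def BadU (q : ℕ) (𝒦 : Set (Set (Finset (Fin n) × (Fin n → Bool)))) (R : Set ι) : Prop :=
  ∃ K ∈ 𝒦, (∀ p ∈ K, ∃ c ∈ R, InU H p c) ∧
    ∀ T : Finset ι, (∀ c ∈ T, c ∈ R) → T.card ≤ q → ∃ p ∈ K, ∀ c ∈ T, ¬ InU H p c

open Classical in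
/-- The exceptions of the functions before the function `i`. -/
noncomputable def ESU (d s₀ θ : ℕ) (f : ℕ → (Fin n → Bool) → ℝ) : ℕ → Finset (Fin n → Bool)
  | 0 => ∅
  | i + 1 => ESU d s₀ θ f i ∪
      univ.filter fun x => ∃ a : ℝ, x ∈ ErrU H d s₀ θ (BR (ESU d s₀ θ f i) (f i) a)

/-- The chain of the kernels of the function `i`. -/
def KSU (d s₀ θ : ℕ) (f : ℕ → (Fin n → Bool) → ℝ) (i : ℕ) :
    Set (Set (Finset (Fin n) × (Fin n → Bool))) :=
  {K | ∃ a : ℝ, K = KerU H d s₀ θ (BR (ESU H d s₀ θ f i) (f i) a)}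

end

/-- The candidates chosen by `r`: in the row `j` the candidate `r j`. -/
def AL {m μ : ℕ} (r : Fin m → Fin μ) : Set (Fin m × Fin μ) := {c | r c.1 = c.2}

/-- The formula given by the candidates `H` and the choice `r`. -/
def FU {n k m μ : ℕ} (H : Fin m × Fin μ → KC n k) (r : Fin m → Fin μ) : KCNF n k m :=
  fun j => H (j, r j)

/-- The form of `Few` for the choices. -/
def FewR (γ : ℝ) (n t s b a N : ℕ) : Prop :=
  ((s : ℝ) ≤ 2 ^ (γ * n) → 2 ^ n ≤ 2 * b → 2 ^ (n + 2) * a ≤ N) ∧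
    ((s : ℝ) * 2 ^ ((1 - γ) * n) < b → 2 * (t * a) ≤ N)

/-- The conditions on the parameters. -/
structure ParU (γ : ℝ) (n t k μ w d s₀ q : ℕ) : Prop where
  t2 : 2 ≤ t
  n1 : 1 ≤ n
  nt : n ≤ t
  k1 : 1 ≤ k
  kn : k ≤ n
  w1 : 1 ≤ w
  wn : w ≤ n
  q1 : 1 ≤ q
  μ1 : 1 ≤ μ
  γ1 : γ ≤ 1
  rr : t * t + t * t * q < 2 ^ d
  dd : 2 ^ 8 * t ^ 4 ≤ 2 ^ d
  tau : 20 * ((2 : ℝ) ^ (d * s₀) * ((2 ^ (n - w) + 1) * 2 ^ (d * s₀))) ≤ 2 ^ ((1 - γ) * n)
  cov : 4 * (q * 2 ^ (n - k)) < 2 ^ n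
  bad : 2 ^ (n + t + 3) * s₀ ^ (q + 1) ≤ μ ^ (q + 1)
  hit : 16 * (t * s₀) ≤ μ
  los : 16 * (n + 1) * s₀ ≤ μ

end Pool.Agent.H53.UK
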