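import Pool.Agent.H53.MW.Stmt

/-!
MP_c62aed_lc: uniformly random `k`-CNFs, refutations with permanent lines of a fixed family and a
bounded work memory. The definitions used by the statement. `Clause`, `Falsified`, `SatBy`, `Line`,
`Circuit` are those of `Pool/Agent/H53/MC/Stmt.lean`, `Follows`, `Session`, `DerivesL`, `geL`,
`DerivesR` are those of `Pool/Agent/H53/MW/Stmt.lean`.
-/

set_option autoImplicit false

namespace Pool.Agent.H53.UK

open Pool.Agent.H53.MC (Clause Falsified SatBy Line Circuit)
open Pool.Agent.H53.MW (Follows Session DerivesL geL DerivesR)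

/-- A clause with `k` literals: a set of `k` of the `n` variables and a sign for every variable (only
the signs of the variables of the set are used). -/
abbrev KC (n k : ℕ) : Type := {A : Finset (Fin n) // A.card = k} × (Fin n → Bool)

/-- The clause as a set of literals. -/
def toCl {n k : ℕ} (c : KC n k) : Clause n := c.1.1.image fun i => (i, c.2 i)

/-- A `k`-CNF with `n` variables and `m` clauses. -/
abbrev KCNF (n k m : ℕ) : Type := Fin m → KC n k

/-- The set of the clauses of a `k`-CNF. -/
def cnfU {n k m : ℕ} (F : KCNF n k m) : Set (Clause n) := Set.range fun j => toCl (F j)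

/-- `s` objects exclude `b` of the `2 ^ n` assignments for `a` of the `N` formulas. If
`s ≤ 2 ^ (γ n)` and at least half of the assignments are excluded, then `a / N < 2 ^ (-n)`; if
more than `s 2 ^ ((1 - γ) n)` assignments are excluded, then `a / N ≤ 1 / t`. -/
def Few (γ : ℝ) (n t s b a N : ℕ) : Prop :=
  ((s : ℝ) ≤ 2 ^ (γ * n) → 2 ^ n ≤ 2 * b → 2 ^ n * a < N) ∧
    ((s : ℝ) * 2 ^ ((1 - γ) * n) < b → t * a ≤ N)

/-- Few of the `k`-CNFs `F` with `n` variables and `m` clauses
(1) allow to derive a given line `L` with permanent lines of a given family `𝓛`, a work memory of at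
most `t` lines of a given family `𝓠` of at most `2 ^ t` lines, and at most `s` steps between two
permanent lines,
(2) allow to derive a given inequality `f i ≥ a` in the same way with permanent lines `f j ≥ b`, for
given functions `f 0, .., f (N - 1)`,
(3) are accepted by a given monotone real circuit with `s` gates of fan-in at most `t` (the gate
`i` accepts when its value is at least `a`), where `b` is the number of the assignments `x` for
which the set of all clauses satisfied by `x` is rejected. -/
def Hard (γ : ℝ) (n t k m : ℕ) : Prop :=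
  (∀ (𝓛 𝓠 : Finset (Line n)) (s : ℕ) (L : Line n), 𝓠.card ≤ 2 ^ t → 1 ≤ s →
    Few γ n t (𝓛.card * s) (Nat.card {x // x ∉ L})
      (Nat.card {F : KCNF n k m // DerivesL (cnfU F) 𝓛 𝓠 t s L}) (Nat.card (KCNF n k m))) ∧
  (∀ (𝓠 : Finset (Line n)) (N s : ℕ) (f : ℕ → (Fin n → Bool) → ℝ) (i : ℕ) (a : ℝ),
    𝓠.card ≤ 2 ^ t → 1 ≤ s → i < N →
    Few γ n t (N * s) (Nat.card {x // f i x < a})
      (Nat.card {F : KCNF n k m // DerivesR (cnfU F) f 𝓠 t s i a}) (Nat.card (KCNF n k m))) ∧
  ∀ (s : ℕ) (h : ℕ → Set (Clause n) → ℝ), Circuit t s h → ∀ (i : ℕ) (a : ℝ), i < s →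
    Few γ n t s (Nat.card {x // h i (SatBy x) < a})
      (Nat.card {F : KCNF n k m // a ≤ h i (cnfU F)}) (Nat.card (KCNF n k m))

/-- The final statement. -/
def Main : Prop :=
  ∃ C : ℕ, ∀ (ε β : ℝ) (n t k m : ℕ), 0 < ε → ε < β → β ≤ 1 → 2 ≤ t → n ≤ t →
    C * Nat.log 2 t ≤ ε ^ 2 * k → C * k ≤ ε * n →
      (m * β ^ k ≤ 2 ^ ((1 - ε) * k) → Hard (β - ε) n t k m) ∧
      (C * t * 2 ^ k ≤ ε ^ 2 * m →
        2 ^ t * Nat.card {F : KCNF n k m // ∃ x,
          (Nat.card {j // Falsified (toCl (F j)) x} : ℝ) < (1 - ε) * m / 2 ^ k} ≤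
            Nat.card (KCNF n k m))

end Pool.Agent.H53.UK
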